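import Pool.Agent.GCP.Final
import Pool.Agent.GCP.W19Thm
import Pool.Agent.GCP.Big

/-!
# MP_062f91_co: the values of `G`

`G(n) = ⌊n/4⌋ + 1` for all `n ≥ 3`, `n ≠ 11`, and `G(11) = 4`.

The definitions `Pt`, `GeneralPosition`, `IsConvexPolygon`, `HasConvexPartition` and `G` are
those of `Pool.Agent.GCP.Defs`.
-/

namespace Pool.Agent.Results.MP_062f91_co.GAll

open Pool.Agent.GCP

/-- The values of `G`: `⌊n/4⌋ + 1` for all `n ≥ 3` except `n = 11`, and `G(11) = 4`. -/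
theorem result : (∀ n : ℕ, 3 ≤ n → n ≠ 11 → G n = n / 4 + 1) ∧ G 11 = 4 :=
  G_all w19_thm noBig

end Pool.Agent.Results.MP_062f91_co.GAll
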